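import Mathlib
import Pool.Agent.TH894.NE4

/-!
# The normalised `L`-polynomials of hyperelliptic curves whose coefficients arise from arbitrary integers by changing a few
digits: all boxes at once, with the square root of the main term as error

Nothing is used besides Mathlib in the statement.
-/

set_option autoImplicit false

namespace Pool.Agent.Results.MP_6dc561_nt.BoxesFewDigitCurves

open Finset

noncomputable section

/-- The number of the points over the field with `p ^ j` elements of the smooth projective model of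
`y ^ 2 = m 0 + m 1 x + … + m n x ^ n`: the affine points, and at infinity one point if `n` is odd and the solutions of
`z ^ 2 = m n` if `n` is even. -/
def points {n : ℕ} (p : Nat.Primes) (m : Fin (n + 1) → ℕ) (j : ℕ) : ℕ :=
  haveI : Fact (p : ℕ).Prime := ⟨p.2⟩
  Nat.card {P : GaloisField p j × GaloisField p j // P.2 ^ 2 = ∑ i : Fin (n + 1), (m i : GaloisField p j) * P.1 ^ (i : ℕ)} +
    if Odd n then 1 else Nat.card {z : GaloisField p j // z ^ 2 = (m (Fin.last n) : GaloisField p j)}

/-- The coefficients `c_i` of `exp (∑ t_j T ^ j / j)`: `c_0 = 1` and `(i + 1) c_{i+1} = ∑_{j ≤ i} t_{j+1} c_{i-j}`. -/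
def coeffL (t : ℕ → ℝ) : ℕ → ℝ
  | 0 => 1
  | i + 1 => (∑ j : Fin (i + 1), t (j + 1) * coeffL t (i - j)) / (i + 1)

/-- The coefficient of `T ^ k` in the normalised `L`-polynomial `L(T / √p)`, where
`L(T) = exp (∑ (N_j - 1 - p ^ j) T ^ j / j)`, `N_j` the number of the points over the field with `p ^ j` elements. -/
def a {n : ℕ} (p : Nat.Primes) (m : Fin (n + 1) → ℕ) (k : ℕ) : ℝ :=
  coeffL (fun j => (points p m j : ℝ) - 1 - ((p : ℕ) : ℝ) ^ j) k / √((p : ℕ) : ℝ) ^ k

/-- `p ≠ 2` and the polynomial with the coefficients `m` is separable of degree `n` modulo `p`. -/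
def GoodPrime {n : ℕ} (p : Nat.Primes) (m : Fin (n + 1) → ℕ) : Prop :=
  (p : ℕ) ≠ 2 ∧ (m (Fin.last n) : ZMod p) ≠ 0 ∧
    (∑ i : Fin (n + 1), Polynomial.C (m i : ZMod p) * Polynomial.X ^ (i : ℕ)).Separable

/-- The prime `p` is good and the coefficients `a_{1,p}, …, a_{g,p}`, `g = ⌊(n - 1) / 2⌋` the genus, are in the box
`[lo_k, hi_k]`. -/
def InBox {n : ℕ} (lo hi : Fin ((n - 1) / 2) → ℝ) (p : Nat.Primes) (m : Fin (n + 1) → ℕ) : Prop :=
  GoodPrime p m ∧ ∀ k, lo k ≤ a p m (k + 1) ∧ a p m (k + 1) ≤ hi k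

/-- The primes up to `x`. -/
def primes (x : ℕ) : Finset Nat.Primes := (range (x + 1)).subtype Nat.Prime

open Classical in
/-- The number of the good primes `p ≤ x` with the coefficients in the box. -/
def count {n : ℕ} (m : Fin (n + 1) → ℕ) (lo hi : Fin ((n - 1) / 2) → ℝ) (x : ℕ) : ℕ :=
  ((primes x).filter (fun p => InBox lo hi p m)).card

open Classical in
/-- The sum over the primes `p ≤ x` of the proportion of the curves with the coefficients in the box among all
polynomials modulo `p`. -/
def expected (n : ℕ) (lo hi : Fin ((n - 1) / 2) → ℝ) (x : ℕ) : ℝ :=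
  ∑ p ∈ primes x, (((Fintype.piFinset (fun _ : Fin (n + 1) => range p)).filter (fun m => InBox lo hi p m)).card : ℝ) /
    ((p : ℕ) : ℝ) ^ (n + 1)

/-- For all boxes the number of the primes differs from the expected number `V` by at most `(max 1 V) ^ (1 / 2) x ^ δ`. -/
def Close {n : ℕ} (δ : ℝ) (x : ℕ) (m : Fin (n + 1) → ℕ) : Prop :=
  ∀ lo hi : Fin ((n - 1) / 2) → ℝ,
    |(count m lo hi x : ℝ) - expected n lo hi x| ≤ √(max 1 (expected n lo hi x)) * (x : ℝ) ^ δ

/-- The digit number `i` (counted from the right, beginning with `0`) of `N` in base `b`. -/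
def digit (b i N : ℕ) : ℕ := N / b ^ i % b

/-- The number which arises from the number `N` with at most `K` digits in base `b`, if for every `i ∈ S`
the digit number `i` is replaced by `f i`. -/
def change (b K N : ℕ) (f : ℕ → ℕ) (S : Finset ℕ) : ℕ :=
  ∑ i ∈ range K, (if i ∈ S then f i else digit b i N) * b ^ i

open Classical in
/-- The number of the choices of `r l` of `K l` positions for `0 ≤ l ≤ n` for which the numbers obtained by
changing the digits of `N l` at the chosen positions (according to `f l`) do not have the property `E`. -/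
def exceptions {n : ℕ} (b : ℕ) (K r N : Fin (n + 1) → ℕ) (f : Fin (n + 1) → ℕ → ℕ) (E : (Fin (n + 1) → ℕ) → Prop) : ℕ :=
  ((Fintype.piFinset (fun l => powersetCard (r l) (range (K l)))).filter
    (fun S => ¬ E (fun l => change b (K l) (N l) (f l) (S l)))).card

lemma cast_mod (p : Nat.Primes) (j N : ℕ) :
    haveI : Fact (p : ℕ).Prime := ⟨p.2⟩
    ((N % (p : ℕ) : ℕ) : GaloisField p j) = (N : GaloisField p j) := by
  haveI : Fact (p : ℕ).Prime := ⟨p.2⟩
  exact (CharP.cast_eq_mod (GaloisField p j) p N).symm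

lemma points_mod {n : ℕ} (p : Nat.Primes) (m : Fin (n + 1) → ℕ) (j : ℕ) :
    points p (fun i => m i % (p : ℕ)) j = points p m j := by
  unfold points
  simp only [cast_mod]

lemma a_mod {n : ℕ} (p : Nat.Primes) (m : Fin (n + 1) → ℕ) (k : ℕ) : a p (fun i => m i % (p : ℕ)) k = a p m k := by
  unfold a
  simp only [points_mod]

lemma inBox_mod {n : ℕ} (lo hi : Fin ((n - 1) / 2) → ℝ) (p : Nat.Primes) (m : Fin (n + 1) → ℕ) :
    InBox lo hi p m ↔ InBox lo hi p (fun i => m i % (p : ℕ)) := by
  unfold InBox GoodPrime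
  simp only [a_mod, ZMod.natCast_mod]

lemma mem_primes {x : ℕ} {p : Nat.Primes} : p ∈ primes x ↔ (p : ℕ) ≤ x := by
  have h : p ∈ primes x ↔ (p : ℕ) ∈ range (x + 1) := Finset.mem_subtype
  rw [h, mem_range]
  omega

open Classical in
/-- The values of the coefficients at the primes up to `x`. -/
def vals (n x : ℕ) : Finset ℝ :=
  ((primes x ×ˢ Fintype.piFinset (fun _ : Fin (n + 1) => range (x + 1))) ×ˢ (univ : Finset (Fin ((n - 1) / 2)))).image
    (fun q => a q.1.1 q.1.2 (q.2 + 1))

lemma mem_vals {n x : ℕ} {p : Nat.Primes} (hp : p ∈ primes x) (m : Fin (n + 1) → ℕ) (k : Fin ((n - 1) / 2)) :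
    a p m (k + 1) ∈ vals n x := by
  unfold vals
  rw [mem_image]
  refine ⟨((p, fun i => m i % (p : ℕ)), k), ?_, a_mod p m _⟩
  rw [mem_product, mem_product, Fintype.mem_piFinset]
  refine ⟨⟨hp, fun i => ?_⟩, mem_univ _⟩
  show m i % (p : ℕ) ∈ range (x + 1)
  rw [mem_range]
  have h1 := Nat.mod_lt (m i) p.2.pos
  have h2 := mem_primes.1 hp
  omega

lemma card_primes_le (x : ℕ) : (primes x).card ≤ x + 1 := by
  have h : (primes x).card = ((range (x + 1)).filter Nat.Prime).card := Finset.card_subtype _ _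
  rw [h]
  refine (card_filter_le _ _).trans ?_
  rw [card_range]

lemma card_vals (n x : ℕ) (hx : 2 ≤ x) (hg : (n - 1) / 2 ≤ x) : (vals n x).card ≤ x ^ (2 * n + 5) := by
  unfold vals
  refine card_image_le.trans ?_
  rw [card_product, card_product, Fintype.card_piFinset_const, card_range, card_univ, Fintype.card_fin]
  have h1 : x + 1 ≤ x ^ 2 := by nlinarith
  calc (primes x).card * (x + 1) ^ (n + 1) * ((n - 1) / 2) ≤ x ^ 2 * (x ^ 2) ^ (n + 1) * x := by
        gcongr
        exact (card_primes_le x).trans h1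
    _ = x ^ (2 * n + 5) := by rw [← pow_mul, ← pow_add, ← pow_succ]; congr 1; ring

/-- a box with corners in the set of the values -/
lemma exists_box {n x : ℕ} (lo hi : Fin ((n - 1) / 2) → ℝ) :
    (∀ p ∈ primes x, ∀ m : Fin (n + 1) → ℕ, ¬ InBox lo hi p m) ∨
    ∃ l ∈ Fintype.piFinset (fun _ : Fin ((n - 1) / 2) => vals n x ×ˢ vals n x), ∀ p ∈ primes x, ∀ m : Fin (n + 1) → ℕ,
      (InBox lo hi p m ↔ InBox (fun k => (l k).1) (fun k => (l k).2) p m) := by
  classical
  by_cases h : ∀ k, ((vals n x).filter (fun v => lo k ≤ v)).Nonempty ∧ ((vals n x).filter (fun v => v ≤ hi k)).Nonempty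
  · right
    refine ⟨fun k => (((vals n x).filter (fun v => lo k ≤ v)).min' (h k).1,
      ((vals n x).filter (fun v => v ≤ hi k)).max' (h k).2), ?_, ?_⟩
    · rw [Fintype.mem_piFinset]
      intro k
      rw [mem_product]
      exact ⟨(mem_filter.1 (min'_mem _ (h k).1)).1, (mem_filter.1 (max'_mem _ (h k).2)).1⟩
    · intro p hp m
      unfold InBox
      apply and_congr_right
      intro _
      apply forall_congr'
      intro k
      have hv := mem_vals hp m k
      constructor
      · rintro ⟨h1, h2⟩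
        exact ⟨min'_le _ _ (mem_filter.2 ⟨hv, h1⟩), le_max' _ _ (mem_filter.2 ⟨hv, h2⟩)⟩
      · rintro ⟨h1, h2⟩
        exact ⟨(mem_filter.1 (min'_mem _ (h k).1)).2.trans h1, h2.trans (mem_filter.1 (max'_mem _ (h k).2)).2⟩
  · left
    push Not at h
    obtain ⟨k, hk⟩ := h
    intro p hp m hin
    have hv := mem_vals hp m k
    obtain ⟨h1, h2⟩ := hin.2 k
    have h3 := hk ⟨_, mem_filter.2 ⟨hv, h1⟩⟩
    exact (notMem_empty _) (h3 ▸ mem_filter.2 ⟨hv, h2⟩)

/-- Let `n ≥ 1`, a base `b ≥ 2`, `δ > 0` and an integer `A ≥ 0` be given. There are `c > 0` and `y₀` such that for all integers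
`r l`, `K l` (`0 ≤ l ≤ n`) and `y` with `2 r l ≤ K l` and `y ≥ y₀` the following holds.

Let `0 ≤ N l < b ^ K l` be arbitrary integers and prescribe for every position `j` a digit `f l j` different from the digit of
`N l` in base `b`. If one chooses `r l` of the `K l` positions and replaces the digits of `N l` at these positions, then
for all but at most a proportion `1 / y ^ A` of the choices the hyperelliptic curve `y ^ 2 = m 0 + m 1 x + … + m n x ^ n` with
the numbers obtained has the following property: for all integers `x` with `y ≤ x ≤ exp (c r l)` (all `l`) and all boxes in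
the space of `(a_1, …, a_g)`, `g = ⌊(n - 1) / 2⌋` the genus, the number of the good primes `p ≤ x` for which the coefficients of the
normalised `L`-polynomial are in the box differs from its expected value `V` (the sum over the primes `p ≤ x` of
the proportion of the polynomials modulo `p` which are separable of degree `n` with the coefficients in the box) by at most
`(max 1 V) ^ (1 / 2) x ^ δ`. -/
theorem result (n b : ℕ) (hb : 2 ≤ b) (δ : ℝ) (hδ : 0 < δ) (A : ℕ) : ∃ c : ℝ, 0 < c ∧ ∃ y₀ : ℕ,
    ∀ (K r : Fin (n + 1) → ℕ) (y : ℕ), (∀ l, 2 * r l ≤ K l) → y₀ ≤ y →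
    ∀ N : Fin (n + 1) → ℕ, (∀ l, N l < b ^ K l) → ∀ f : Fin (n + 1) → ℕ → ℕ, (∀ l j, f l j < b ∧ f l j ≠ digit b j (N l)) →
      (exceptions b K r N f (fun m => ∀ x : ℕ, y ≤ x → (∀ l, (x : ℝ) ≤ Real.exp (c * r l)) → Close δ x m) : ℝ) ≤
        1 / (y : ℝ) ^ A * ∏ l, ((K l).choose (r l) : ℝ) := by
  classical
  obtain ⟨c, hc, x₀, h⟩ := Pool.Agent.TH894.NE.law2 b (n + 1) hb (by omega) δ A
    (((2 * (2 * n + 5) * ((n - 1) / 2) : ℕ) : ℝ)) hδ
  refine ⟨c, hc, x₀ + 3 + n, fun K r y hrK hy N hN f hf => ?_⟩
  have hy0 : (0 : ℝ) < y := by exact_mod_cast (by omega : 0 < y)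
  have h1 : 1 / (y : ℝ) ^ A = (y : ℝ) ^ (-(A : ℝ)) := by
    rw [Real.rpow_neg hy0.le, Real.rpow_natCast, one_div]
  rw [h1]
  unfold exceptions
  refine h r K y hrK (by omega) N hN f hf (Fin ((n - 1) / 2) → ℝ × ℝ)
    (fun x => if x < 2 + n then ∅ else Fintype.piFinset (fun _ : Fin ((n - 1) / 2) => vals n x ×ˢ vals n x)) ?_ Nat.Primes
    (fun x _ => primes x) (fun _ p => p) ?_ ?_ (fun l p m => InBox (fun k => (l k).1) (fun k => (l k).2) p m) ?_ _
    (filter_subset _ _) ?_
  · intro x _
    show (((if x < 2 + n then ∅ else Fintype.piFinset (fun _ : Fin ((n - 1) / 2) => vals n x ×ˢ vals n x) :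
      Finset (Fin ((n - 1) / 2) → ℝ × ℝ)).card : ℕ) : ℝ) ≤ _
    split_ifs with hx
    · rw [card_empty, Nat.cast_zero]
      positivity
    · push Not at hx
      rw [Fintype.card_piFinset_const, card_product, Real.rpow_natCast]
      have e1 := card_vals n x (by omega) (by omega)
      have e2 : ((vals n x).card * (vals n x).card) ^ ((n - 1) / 2) ≤ x ^ (2 * (2 * n + 5) * ((n - 1) / 2)) := by
        calc ((vals n x).card * (vals n x).card) ^ ((n - 1) / 2) ≤ (x ^ (2 * n + 5) * x ^ (2 * n + 5)) ^ ((n - 1) / 2) := by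
              gcongr
          _ = x ^ (2 * (2 * n + 5) * ((n - 1) / 2)) := by
              rw [← pow_add, ← pow_mul]; congr 1; ring
      exact_mod_cast e2
  · intro x l _ p hp
    exact ⟨p.2.one_lt.le, mem_primes.1 hp⟩
  · intro x l _ p _ p' _ hne
    exact (Nat.coprime_primes p.2 p'.2).2 (fun he => hne (Subtype.ext he))
  · intro x l _ p _ m
    exact inBox_mod _ _ p m
  · intro S hS
    rw [mem_filter] at hS
    obtain ⟨_, hS2⟩ := hS
    unfold Close at hS2
    push Not at hS2
    obtain ⟨x, hyx, hxr, lo, hi, hlt⟩ := hS2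
    have hx0 : (0 : ℝ) < x := by exact_mod_cast (by omega : 0 < x)
    obtain ⟨m, hm⟩ : ∃ m : Fin (n + 1) → ℕ, m = fun l => change b (K l) (N l) (f l) (S l) := ⟨_, rfl⟩
    rw [← hm] at hlt
    rcases exists_box (x := x) lo hi with hno | ⟨l, hl, hbox⟩
    · exfalso
      have h9 : count m lo hi x = 0 := by
        unfold count
        rw [card_eq_zero, filter_eq_empty_iff]
        intro p hp
        exact hno p hp m
      have h10 : expected n lo hi x = 0 := by
        unfold expected
        apply sum_eq_zero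
        intro p hp
        have : (Fintype.piFinset (fun _ : Fin (n + 1) => range p)).filter (fun m => InBox lo hi p m) = ∅ := by
          rw [filter_eq_empty_iff]
          intro m _
          exact hno p hp m
        rw [this, card_empty, Nat.cast_zero, zero_div]
      rw [h9, h10] at hlt
      simp at hlt
      have : 0 ≤ (x : ℝ) ^ δ := by positivity
      linarith
    have hcount : (count m lo hi x : ℝ) =
        (((primes x).filter (fun p => InBox (fun k => (l k).1) (fun k => (l k).2) p m)).card : ℝ) := by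
      unfold count
      congr 2
      apply filter_congr
      intro p hp
      exact hbox p hp m
    have hexp : expected n lo hi x = ∑ p ∈ primes x, Pool.Agent.TH894.NE.Pr (n + 1) p
        (fun m => InBox (fun k => (l k).1) (fun k => (l k).2) p m) := by
      unfold expected Pool.Agent.TH894.NE.Pr Pool.Agent.TH894.NE.box
      apply sum_congr rfl
      intro p hp
      congr 3
      apply filter_congr
      intro m _
      exact hbox p hp m
    refine ⟨x, hyx, fun l => (Real.log_le_iff_le_exp hx0).2 (hxr l), l, ?_, ?_⟩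
    · show l ∈ (if x < 2 + n then ∅ else Fintype.piFinset (fun _ : Fin ((n - 1) / 2) => vals n x ×ˢ vals n x) :
        Finset (Fin ((n - 1) / 2) → ℝ × ℝ))
      rw [if_neg (by omega)]
      exact hl
    · rw [hcount, hexp, hm] at hlt
      exact hlt

end

end Pool.Agent.Results.MP_6dc561_nt.BoxesFewDigitCurves
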