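import Pool.Agent.R459.Bx4

/-! # The joint law of the coefficients `a₁, a₂` for the Jacobians of almost all curves `y² = F(x) + n G(x)` of genus 2 with `n` in
sparse families given by digits

The integer `n` runs through families with as few as `N ^ c` of the integers up to `N = b ^ k`, with any `c > 0`: the
rearrangements of `k` digits, the palindromes, the integers with independent pairs of mirror digits (in particular all
integers whose `i`-th digit lies in an arbitrary set `D i` with at least two digits, for all `i`).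

For ALL `F, G ∈ ℤ[x]` and almost all `n` in such a family, the number of the `k < K` for which `y² = F(x) + n G(x)` has good reduction
of genus 2 at the prime `p_k` with `a₁ < u` and `a₂ < v` is, for ALL `u`, `v` and ALL `K` up to a fixed power of `N`,
equal to the sum over `k < K` of the exact proportion of the residues modulo `p_k` with this property, up to `K ^ (1 / 2 + δ)`.

Definitions used: in `Pool.Agent.R459.Eq` (file `Pool/Agent/R459/Eq6.lean`): `Almost b k κ c η τ P`: almost all the
members `c + κ v` of the three families have the property `P`, up to a proportion of at most `τ`. -/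

set_option autoImplicit false

namespace Pool.Agent.Results.MP_6dc561_nt.DigitFamilies

open Finset Pool.Agent.R459.Eq Pool.Agent.R459.Bx Polynomial

/-- The polynomial `F + n G` over the ring `R`. -/
noncomputable def poly (F G : ℤ[X]) (n : ℤ) (R : Type) [CommRing R] : R[X] := (F + C n * G).map (Int.castRingHom R)

/-- `p` is an odd prime and `F + n G` modulo `p` is squarefree of degree `5` or `6`, so that the curve `y² = F(x) + n G(x)` has good
reduction of genus `2` at `p`. -/
def Good (F G : ℤ[X]) (n : ℤ) (p : ℕ) : Prop :=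
  p.Prime ∧ p ≠ 2 ∧ Squarefree (poly F G n (ZMod p)) ∧ 5 ≤ (poly F G n (ZMod p)).natDegree ∧ (poly F G n (ZMod p)).natDegree ≤ 6

/-- The number of the points over the field with `p ^ r` elements of the smooth projective model of `y² = f(x)`, `f = F + n G` modulo `p`
(squarefree of degree `5` or `6`): the number of the affine solutions plus the number of the points at infinity, which is the
number of the square roots of the coefficient of `x ^ 6`. -/
noncomputable def points (F G : ℤ[X]) (n : ℤ) (p r : ℕ) [Fact p.Prime] : ℕ :=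
  Nat.card {z : GaloisField p r × GaloisField p r // z.2 ^ 2 = (poly F G n (GaloisField p r)).eval z.1} +
    Nat.card {y : GaloisField p r // y ^ 2 = (poly F G n (GaloisField p r)).coeff 6}

/-- `N_r - p ^ r - 1` (minus the sum of the `r`-th powers of the Frobenius eigenvalues). -/
noncomputable def trace (F G : ℤ[X]) (n : ℤ) (p r : ℕ) : ℝ :=
  open Classical in
  if h : p.Prime then (haveI : Fact p.Prime := ⟨h⟩; (points F G n p r : ℝ) - (p : ℝ) ^ r - 1) else 0

/-- The coefficient `a₁` of `L_p(T / p ^ (1 / 2))`, `L_p(T) = exp (∑ (N_r - p ^ r - 1) T ^ r / r)`. -/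
noncomputable def a1 (F G : ℤ[X]) (n : ℤ) (p : ℕ) : ℝ := trace F G n p 1 / √(p : ℝ)

/-- The coefficient `a₂` of `L_p(T / p ^ (1 / 2))`. -/
noncomputable def a2 (F G : ℤ[X]) (n : ℤ) (p : ℕ) : ℝ := (trace F G n p 1 ^ 2 + trace F G n p 2) / (2 * p)

open Classical in
/-- The number of the `k < K` such that the curve `y² = F(x) + n G(x)` has good reduction at the prime `p_k` (numbered from `0`) with
`a₁ < u`, `a₂ < v`. -/
noncomputable def count (F G : ℤ[X]) (n : ℤ) (K : ℕ) (u v : ℝ) : ℕ :=
  ((range K).filter (fun k => Good F G n (Nat.nth Nat.Prime k) ∧ a1 F G n (Nat.nth Nat.Prime k) < u ∧ a2 F G n (Nat.nth Nat.Prime k) < v)).card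

open Classical in
/-- The sum over `k < K` of the proportion of the residues `ν` modulo `p_k` for which `y² = F(x) + ν G(x)` has good reduction at `p_k`
with `a₁ < u`, `a₂ < v`. -/
noncomputable def model (F G : ℤ[X]) (K : ℕ) (u v : ℝ) : ℝ :=
  ∑ k ∈ range K, (((range (Nat.nth Nat.Prime k)).filter (fun ν : ℕ => Good F G ν (Nat.nth Nat.Prime k) ∧
    a1 F G ν (Nat.nth Nat.Prime k) < u ∧ a2 F G ν (Nat.nth Nat.Prime k) < v)).card : ℝ) / (Nat.nth Nat.Prime k : ℝ)

lemma poly_per (F G : ℤ[X]) (m n : ℤ) (p : ℕ) (R : Type) [CommRing R] [CharP R p] (h : (p : ℤ) ∣ m - n) : poly F G m R = poly F G n R := by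
  have h1 : ((m : ℤ) : R) = ((n : ℤ) : R) := by
    have h2 := (CharP.intCast_eq_zero_iff R p (m - n)).2 h
    rw [Int.cast_sub, sub_eq_zero] at h2
    exact h2
  unfold poly
  rw [Polynomial.map_add, Polynomial.map_add, Polynomial.map_mul, Polynomial.map_mul, Polynomial.map_C, Polynomial.map_C,
    eq_intCast, eq_intCast, h1]

lemma good_per (F G : ℤ[X]) (m n : ℤ) (p : ℕ) (h : (p : ℤ) ∣ m - n) : Good F G m p ↔ Good F G n p := by
  unfold Good
  rw [poly_per F G m n p (ZMod p) h]

lemma trace_per (F G : ℤ[X]) (m n : ℤ) (p r : ℕ) (h : (p : ℤ) ∣ m - n) : trace F G m p r = trace F G n p r := by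
  unfold trace
  by_cases hp : p.Prime
  · rw [dif_pos hp, dif_pos hp]
    haveI : Fact p.Prime := ⟨hp⟩
    unfold points
    rw [poly_per F G m n p (GaloisField p r) h]
  · rw [dif_neg hp, dif_neg hp]

/-- **The joint law of `a₁, a₂` for almost all curves of genus 2 with a parameter in a sparse family given by digits.** Let `b ≥ 2`
and `η > 0`. There is `W` such that for `κ ≠ 0`, `0 < δ ≤ 1 / 2` and all sufficiently large `X` the following holds for all `k ≥ 2`,
all `c` and ALL `F, G ∈ ℤ[x]`. Almost all the members `n` of the families of integers `c + κ v` with `k` digits described by `Almost`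
(the rearrangements `v` of `k` digits, the palindromes, the integers with independent pairs of mirror digits), up to a proportion of
at most `X ^ (- δ)`, have for ALL `K ≥ X` with `K ^ W ≤ b ^ k` and ALL `u, v`: the number of the `k' < K` such that the curve
`y² = F(x) + n G(x)` has good reduction of genus `2` at `p_k'` with `a₁ < u`, `a₂ < v` differs from the sum over `k' < K` of the
proportion of the residues `ν` modulo `p_k'` such that `y² = F(x) + ν G(x)` has this property by at most `K ^ (1 / 2 + δ)`. -/
theorem result (b : ℕ) (hb : 2 ≤ b) (η : ℝ) (hη : 0 < η) : ∃ W : ℕ, 1 ≤ W ∧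
    ∀ κ : ℤ, κ ≠ 0 → ∀ δ : ℝ, 0 < δ → δ ≤ 1 / 2 → ∃ X₀ : ℕ, ∀ X : ℕ, X₀ ≤ X → ∀ k : ℕ, 2 ≤ k → ∀ (c : ℤ) (F G : ℤ[X]),
    Almost b k κ c η ((X : ℝ) ^ (-δ)) (fun n => ∀ K : ℕ, X ≤ K → K ^ W ≤ b ^ k → ∀ u v : ℝ,
      |(count F G n K u v : ℝ) - model F G K u v| ≤ (K : ℝ) ^ (1 / 2 + δ)) := by
  classical
  obtain ⟨W, hW, H⟩ := boxes_one b hb η hη 3
  refine ⟨W, hW, fun κ hκ δ hδ hδ1 => ?_⟩
  obtain ⟨X₀, J⟩ := H κ hκ δ hδ hδ1
  refine ⟨X₀, fun X hX k hk c F G => ?_⟩
  obtain ⟨y, hy⟩ : ∃ y : ℕ → ℤ → Fin 3 → ℝ, y = fun p n => ![if Good F G n p then 0 else 1, a1 F G n p, a2 F G n p] := ⟨_, rfl⟩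
  have hiff : ∀ (p : ℕ) (n : ℤ) (u v : ℝ), (∀ j, y p n j < (![1 / 2, u, v] : Fin 3 → ℝ) j) ↔ (Good F G n p ∧ a1 F G n p < u ∧ a2 F G n p < v) := by
    intro p n u v
    rw [hy, Fin.forall_fin_succ, Fin.forall_fin_succ, Fin.forall_fin_one]
    simp only [Matrix.cons_val_zero, Fin.succ_zero_eq_one, Matrix.cons_val_one]
    constructor
    · rintro ⟨h1, h2, h3⟩
      refine ⟨?_, h2, h3⟩
      by_contra hcon
      rw [if_neg hcon] at h1
      norm_num at h1
    · rintro ⟨h1, h2, h3⟩
      refine ⟨?_, h2, h3⟩
      rw [if_pos h1]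
      norm_num
  refine Almost.mono (J X hX k hk c y ?_) ?_
  · intro p _ m n hmn
    rw [hy]
    simp only
    unfold a1 a2
    rw [trace_per F G m n p 1 hmn, trace_per F G m n p 2 hmn]
    by_cases hg : Good F G m p
    · rw [if_pos hg, if_pos ((good_per F G m n p hmn).1 hg)]
    · rw [if_neg hg, if_neg (fun h => hg ((good_per F G m n p hmn).2 h))]
  · intro n hn K hK hKW u v
    have h1 := hn K hK hKW (![1 / 2, u, v] : Fin 3 → ℝ)
    have e1 : cntB y n K (![1 / 2, u, v] : Fin 3 → ℝ) = count F G n K u v := by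
      unfold cntB count
      congr 1
      apply filter_congr
      intro k' _
      exact hiff _ n u v
    have e2 : modB y K (![1 / 2, u, v] : Fin 3 → ℝ) = model F G K u v := by
      unfold modB model
      apply sum_congr rfl
      intro k' _
      congr 3
      apply filter_congr
      intro ν _
      exact hiff _ ν u v
    rw [e1, e2] at h1
    exact h1

end Pool.Agent.Results.MP_6dc561_nt.DigitFamilies
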