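import Pool.Agent.R318.SU.Fin

/-! # Joint moments of the two coefficients of the `L`-polynomials for almost all Jacobians of curves `y ^ 2 = f(x)` of
genus two (and for the first two coefficients in any genus), with coefficients in sparse families given by digits

Let `f` be a polynomial of degree `n` with integer coefficients `a`. For a prime `p ≠ 2` such that `f` modulo `p` is
squarefree of degree `n`, let `N₁`, `N₂` be the numbers of the solutions `(x, y)` of `y ^ 2 = f(x)` in the fields with `p`
and `p ^ 2` elements, and `a1 = (N₁ - p) / √p`, `a2 = ((N₁ - p) ^ 2 + (N₂ - p ^ 2)) / (2 p)`. For `n = 5` the curve has genus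
two, and the normalised `L`-polynomial of its Jacobian, an abelian surface, is `1 + a1 T + a2 T ^ 2 + a1 T ^ 3 + T ^ 4`, so
that `a1`, `a2` determine the class `s(p)` of the problem. For `n = 2 g + 1` they are the first two coefficients of the
normalised `L`-polynomial, the genus being `g`.

The coefficients are `a j = c j + κ j v j`, where `v j` are independent random integers with `k` independent digits in
base `b`, whose distributions are arbitrary, except that two independent copies of a digit differ with a probability of at
least `η`. For instance the `i`-th digit of `v j` may be any element of a set `D j i` of at least two digits, with equal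
probabilities (the integers without some digit, all the integers below `b ^ k`).

Theorem: with probability at least `1 - C log X / X`, for EVERY `x ≥ X` with `x ^ W ≤ b ^ k` almost all primes up to `x`
are good, and the averages of `a1 ^ i a2 ^ j` over the good primes up to `x` are close to `MM i j` for all `i`, `j` with
`i + 2 j < 2 ⌊(n + 1) / 2⌋`. Here `MM i j` is the moment of `(Z, (Z ^ 2 + 1) / 2 + Z')` for independent centered normal
variables `Z`, `Z'` with the variances `1` and `1 / 2`; the values for `i + 2 j ≤ 5` are in part 1. They are the moments of
the coefficients of the characteristic polynomial of a random matrix in `USp(4)`.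

Proof: modulo `p`, the values of a random polynomial with `n + 1` coefficients at points of degrees one and two of the line
are independent, as long as the sum of the degrees is at most `n + 1`. So the sums of the quadratic characters over the
points of degree one and over those of degree two are independent of each other as far as the moments of weight at most
`n + 1` are concerned, and have the moments of sums of independent variables. For the polynomials that are not squarefree of
degree `n` the terms are bounded by Weil's bound, except for the constants times squares, whose number is very small. The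
second moment of the sum over the primes is computed by the equidistribution of the families modulo products of two primes;
all `x` are treated with a geometric grid.

Definitions used: `points2`, `a2`, `MM`, `Close2` in `Pool.Agent.R318.SU` (file `Fin.lean`), and `points`, `a1`, `GoodP`,
`goods`, `PrV`, `Dist`, `arrays`, `wt`, `dval`, `G` in `Pool.Agent.R318.ST` (files `Fin1.lean`, `Dig.lean`, `Mom.lean`).

Library: helper459 (second moments for families given by digits), helper435 (Weil's bound), helper730 (prime number theorem
in progressions). -/

set_option autoImplicit false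

namespace Pool.Agent.Results.MP_6dc561_nt.FirstTwoCoefficients

open Pool.Agent.R318.ST Pool.Agent.R318.SU

/-- the moments of weight at most `5` -/
lemma table : MM 1 0 = 0 ∧ MM 2 0 = 1 ∧ MM 3 0 = 0 ∧ MM 4 0 = 3 ∧ MM 5 0 = 0 ∧ MM 0 1 = 1 ∧ MM 1 1 = 0 ∧ MM 2 1 = 2 ∧
    MM 3 1 = 0 ∧ MM 0 2 = 2 ∧ MM 1 2 = 0 := by
  have h : √(1 / 2 : ℝ) ^ 2 = 1 / 2 := Real.sq_sqrt (by norm_num)
  refine ⟨?_, ?_, ?_, ?_, ?_, ?_, ?_, ?_, ?_, ?_, ?_⟩ <;>
    simp only [MM, Finset.sum_range_succ, Finset.sum_range_zero, G, h, Nat.choose, pow_zero, pow_one, Nat.sub_zero,
      Nat.sub_self, zero_add, mul_zero, mul_one] <;> norm_num [G]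

/-- **Theorem.** (1) The values of `MM i j` for `i + 2 j ≤ 5`.

(2) Let `b ≥ 2` and `η > 0`. There is `W` such that for all `n ≥ 1`, all nonzero integers `κ j`, `0 ≤ j ≤ n`, and all
`ε > 0` there are `C` and `X₀` with the following property. For all `k`, all `X ≥ X₀`, all integers `c j` and all
distributions `u j` of `k` digits in base `b` such that two independent copies of a digit differ with probability at least
`η` (`Dist`), the polynomial `f` with the coefficients `c j + κ j v j`, where `v j` are independent integers with independent
digits with the distributions `u j`, satisfies, with an exceptional probability of at most `C log X / X`: for EVERY `x ≥ X`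
with `x ^ W ≤ b ^ k`, all the primes up to `x` but a proportion of at most `ε` are good, and for all `i`, `j` with
`i + 2 j < 2 ⌊(n + 1) / 2⌋` the average of `a1 ^ i a2 ^ j` over the good primes up to `x` is `MM i j` up to `ε`. -/
theorem result :
    (MM 1 0 = 0 ∧ MM 2 0 = 1 ∧ MM 3 0 = 0 ∧ MM 4 0 = 3 ∧ MM 5 0 = 0 ∧ MM 0 1 = 1 ∧ MM 1 1 = 0 ∧ MM 2 1 = 2 ∧
      MM 3 1 = 0 ∧ MM 0 2 = 2 ∧ MM 1 2 = 0) ∧
    ∀ (b : ℕ), 2 ≤ b → ∀ (η : ℝ), 0 < η → ∃ W : ℕ, 1 ≤ W ∧
    ∀ n : ℕ, 1 ≤ n → ∀ κ : Fin (n + 1) → ℤ, (∀ j, κ j ≠ 0) → ∀ ε : ℝ, 0 < ε →
    ∃ (C : ℝ) (X₀ : ℕ), ∀ k X : ℕ, X₀ ≤ X → ∀ (c : Fin (n + 1) → ℤ) (u : Fin (n + 1) → ℕ → ℕ → ℝ),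
    (∀ j, Dist b k η (u j)) →
    PrV b k u (fun g => ¬ Close2 n ε X W (b ^ k) (fun j => c j + κ j * (dval b (g j) : ℕ))) ≤ C * (Real.log X / X) :=
  ⟨table, fun b hb η hη => main b hb η hη⟩

end Pool.Agent.Results.MP_6dc561_nt.FirstTwoCoefficients
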