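import Pool.Agent.R385.TL.Cls

/-!
# The Sato–Tate conjecture for abelian surfaces and the frequency of large values

`F` is a number field, `R` a finite set of primes of `F`, `G` a compact group (the Sato–Tate group
`ST_A`), `μ` a probability measure on it (the Haar measure), and `x v`, for the primes `v ∉ R` of `F`, an
element of the conjugacy class `s(v)`.  For a continuous class function `f ≥ 0` on `G` let
`U_f(t) = ∑ f(s(v)) cos(t log q_v) / q_v`, over the primes `v ∉ R` of `F`.

`RareF κ U`: for some `c > 0` and all large `V`, the set where `U ≥ V` has, in every interval of length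
at least `T₀(V)`, a proportion at most `exp(-exp(c exp(V / κ)))`.  `FreqF κ U`: the proportion is at
least this, for some `c > 0`.  `TailExponent κ U`: `RareF κ' U` for all `κ' > κ`, and `FreqF κ' U` for all
`κ' < κ`.
-/

set_option autoImplicit false

namespace Pool.Agent.Results.MP_6dc561_nt.TailExponents

open MeasureTheory Filter Topology NumberField IsDedekindDomain
open Pool.Agent.R385.FG (cosSum cosSeries cosSeries_ae)
open Pool.Agent.R385.TL

section
variable {F : Type} [Field F] [NumberField F] {G : Type} [Group G] [TopologicalSpace G]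
  [MeasurableSpace G]

/-- The classes `s(v)` are equidistributed for `μ`: the averages over the primes `v ∉ R` with
`q_v ≤ X`, for `X → ∞`. -/
def Equidistributed (R : Finset (HeightOneSpectrum (𝓞 F))) (x : HeightOneSpectrum (𝓞 F) → G)
    (μ : Measure G) : Prop :=
  ∀ f ∈ ClassFunctions G, Tendsto (meanV R fun v => f (x v)) atTop (𝓝 (∫ g, f g ∂μ))

/-- The same for the logarithmic averages: the sum of `f(s(v)) / q_v` over the `v` for which `q_v` is a
prime number `≤ X`, divided by `log log X`, tends to the integral of `f`. -/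
def LogEquidistributed (R : Finset (HeightOneSpectrum (𝓞 F))) (x : HeightOneSpectrum (𝓞 F) → G)
    (μ : Measure G) : Prop :=
  ∀ f ∈ ClassFunctions G, Tendsto (fun X : ℕ => primeSum R (fun v => f (x v)) X /
    Real.log (Real.log X)) atTop (𝓝 (∫ g, f g ∂μ))

/-- For all continuous class functions `f ≥ 0` the tail exponent of `U_f` is the integral of `f`. -/
def HaarTails (R : Finset (HeightOneSpectrum (𝓞 F))) (x : HeightOneSpectrum (𝓞 F) → G)
    (μ : Measure G) : Prop :=
  ∀ f ∈ ClassFunctions G, (∀ g, 0 ≤ f g) →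
    TailExponent (∫ g, f g ∂μ) (cosSeries R fun v => f (x v))

end

theorem result (F : Type) [Field F] [NumberField F] (G : Type) [Group G] [TopologicalSpace G]
    [IsTopologicalGroup G] [CompactSpace G] [MeasurableSpace G] [BorelSpace G] (μ : Measure G)
    [IsProbabilityMeasure μ] (R : Finset (HeightOneSpectrum (𝓞 F)))
    (x : HeightOneSpectrum (𝓞 F) → G) :
    (∀ f ∈ ClassFunctions G, (∀ g, 0 ≤ f g) →
      (∀ᵐ t : ℝ, Tendsto (fun X : ℕ => cosSum R (fun v => f (x v)) X t) atTop
        (𝓝 (cosSeries R (fun v => f (x v)) t))) ∧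
      ∀ κ : ℝ, 0 < κ →
        (RareF κ (cosSeries R fun v => f (x v)) ↔ ∃ C : ℝ, ∀ X : ℕ, 3 ≤ X →
          primeSum R (fun v => f (x v)) X ≤ κ * Real.log (Real.log X) + C) ∧
        (FreqF κ (cosSeries R fun v => f (x v)) ↔ ∃ C : ℝ, ∀ X : ℕ, 3 ≤ X →
          κ * Real.log (Real.log X) - C ≤ primeSum R (fun v => f (x v)) X)) ∧
    (LogEquidistributed R x μ ↔ HaarTails R x μ) ∧
    (Equidistributed R x μ ↔
      (∀ f ∈ ClassFunctions G, ∃ ρ : ℝ, Tendsto (meanV R fun v => f (x v)) atTop (𝓝 ρ)) ∧
      HaarTails R x μ) := by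
  refine ⟨fun f hf hf0 => ?_, ?_⟩
  · obtain ⟨C, hC⟩ := bdd_of_continuous hf.1
    have hb : ∀ v, v ∉ R → |f (x v)| ≤ |C| := fun v _ => (hC (x v)).trans (le_abs_self C)
    refine ⟨?_, fun κ hκ => nonneg_iff (abs_nonneg C) hb (fun v _ => hf0 (x v)) hκ⟩
    filter_upwards [cosSeries_ae (abs_nonneg C) hb] with t ht using ht.2
  · exact equi (R := R) x (ClassFunctions G) (fun f hf => bdd_of_continuous hf.1)
      (fun f hf c => class_add hf c) (fun f => ∫ g, f g ∂μ)
      (fun f hf c => integral_add_const' μ hf c) (fun f _ hf0 => integral_nonneg hf0)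

end Pool.Agent.Results.MP_6dc561_nt.TailExponents
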